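import Pool.Agent.R289.Cantor

set_option autoImplicit false

/-!
# A weak*-closed ideal of a measure algebra which is not finitely generated

The group is the discrete abelian group `G = ⊕_ℕ ℤ/2` with generators `g_0, g_1, …`; for a discrete
group `M(G) = ℓ¹(G)` and `C₀(G) = c₀(G)`. With the orthogonal idempotents
`e_n = ∏_{i<n} (1 + g_i)/2 * (1 - g_n)/2` the ideal is `J = {f : e_m * f = 0 for all even m}`.
-/

namespace Pool.Agent.Results.MP_6afee3_an.WeakStarIdeal

open scoped ENNReal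
open Filter Topology Pool.Agent.R289.Conv Pool.Agent.R289.L1 Pool.Agent.R289.Cantor

/-- The convolution product of the measure algebra `M(G) = ℓ¹(G)` of the discrete group `G`. -/
noncomputable def star {G : Type} [Group G] (ν f : Ell G 1) : Ell G 1 :=
  ⟨fun x => conv ν f x, by
    have h : (fun x => conv ν f x) = fun x => Cop hp1 ν f x := by
      funext x
      rw [Cop_apply]
    rw [h]
    exact lp.memℓp _⟩

/-- The weak* topology `σ(M(G), C₀(G))` on `M(G) = ℓ¹(G)` for the discrete group `G`: the coarsest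
topology for which `f ↦ ∑ f(g) h(g)` is continuous for every `h ∈ C₀(G)`, i.e. for every function
`h` on `G` tending to zero along the cofinite filter. -/
@[instance_reducible] noncomputable def weakStar (G : Type) [Group G] : TopologicalSpace (Ell G 1) :=
  ⨅ h : {h : G → ℂ // Tendsto h cofinite (𝓝 0)},
    TopologicalSpace.induced (fun f : Ell G 1 => ∑' g, f g * h.1 g) inferInstance

/-- The left ideal `J` of `M(G)` is finitely generated: `J = M(G) * μ_1 + ⋯ + M(G) * μ_n` for some
`μ_1, …, μ_n ∈ J`. -/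
def FinGen {G : Type} [Group G] (J : Submodule ℂ (Ell G 1)) : Prop :=
  ∃ (n : ℕ) (μ : Fin n → Ell G 1), (∀ i, μ i ∈ J) ∧
    ∀ f : Ell G 1, f ∈ J ↔ ∃ ν : Fin n → Ell G 1, f = ∑ i, star (ν i) (μ i)

theorem star_eq {G : Type} [Group G] (ν f : Ell G 1) : star ν f = Cop hp1 ν f := by
  ext x
  rw [Cop_apply]; rfl

/-- The ideal `{f : e_m * f = 0 for all even m}`. -/
noncomputable def J : Submodule ℂ (Ell BG 1) where
  carrier := {f | ∀ m, Even m → Eop m f = 0}
  add_mem' := fun {a b} ha hb m hm => by rw [map_add, ha m hm, hb m hm, add_zero]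
  zero_mem' := fun m _ => by rw [map_zero]
  smul_mem' := fun c f hf m hm => by rw [map_smul, hf m hm, smul_zero]

theorem mem_J (f : Ell BG 1) : f ∈ J ↔ ∀ m, Even m → Eop m f = 0 := Iff.rfl

theorem J_ideal (ν f : Ell BG 1) (hf : f ∈ J) : star ν f ∈ J := by
  intro m hm
  rw [star_eq, Eop_Cop, hf m hm]
  unfold Cop
  simp

theorem lam_eq (a : MonoidAlgebra ℂ BG) (f : Ell BG 1) (x : BG) :
    lam hp1 a f x = ∑' g, f g * a.coeff (x / g) := by
  rw [lam_apply, conv, ← (Equiv.divLeft x).tsum_eq]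
  refine tsum_congr fun y => ?_
  show a.coeff (x / y) * f ((x / y)⁻¹ * x) = _
  rw [inv_div, div_mul_cancel, mul_comm]

theorem J_closed : IsClosed[weakStar BG] (J : Set (Ell BG 1)) := by
  have h : (J : Set (Ell BG 1)) = ⋂ m : {m : ℕ // Even m}, ⋂ x : BG,
      (fun f : Ell BG 1 => ∑' g, f g * (e m.1).coeff (x / g)) ⁻¹' {0} := by
    ext f
    simp only [Set.mem_iInter, Set.mem_preimage, Set.mem_singleton_iff]
    constructor
    · intro hf m x
      rw [← lam_eq]
      have := hf m.1 m.2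
      show (Eop m.1 f) x = 0
      rw [this]; rfl
    · intro hf m hm
      ext x
      show lam hp1 (e m) f x = 0
      rw [lam_eq]
      exact hf ⟨m, hm⟩ x
  rw [h]
  refine @isClosed_iInter _ _ (weakStar BG) _ fun m => ?_
  refine @isClosed_iInter _ _ (weakStar BG) _ fun x => ?_
  have hfin : {g | (e m.1).coeff (x / g) ≠ 0}.Finite := by
    have h1 : (Function.support (e m.1).coeff).Finite := (e m.1).coeff.hasFiniteSupport
    exact h1.preimage ((Equiv.divLeft x).injective.injOn)
  have h0 : Tendsto (fun g => (e m.1).coeff (x / g)) cofinite (𝓝 0) := by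
    refine tendsto_const_nhds.congr' ?_
    filter_upwards [hfin.compl_mem_cofinite] with g hg
    by_contra hne
    exact hg fun h' => hne h'.symm
  have hc : @Continuous _ _ (weakStar BG) _
      (fun f : Ell BG 1 => ∑' g, f g * (e m.1).coeff (x / g)) := by
    refine continuous_iInf_dom (i := ⟨fun g => (e m.1).coeff (x / g), h0⟩) ?_
    exact continuous_induced_dom
  exact @IsClosed.preimage _ _ (weakStar BG) _ _ hc _ isClosed_singleton

theorem aug_J (f : Ell BG 1) (hf : f ∈ J) : aug f = 0 := by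
  have h1 := (Y_tendsto f).comp (tendsto_id.const_mul_atTop' (r := 2) (by norm_num))
  refine tendsto_nhds_unique h1 (tendsto_const_nhds.congr fun n => ?_)
  show 0 = Y (2 * n) f
  rw [← Y_E, hf (2 * n) (even_two_mul n), Y]
  simp

/-- There are a discrete abelian group `G` and a weak*-closed (left) ideal `J` of `M(G)` which is
not finitely generated. -/
theorem result : ∃ (G : Type) (_ : CommGroup G) (J : Submodule ℂ (Ell G 1)),
    (∀ ν f : Ell G 1, f ∈ J → star ν f ∈ J) ∧
    IsClosed[weakStar G] (J : Set (Ell G 1)) ∧ ¬ FinGen J := by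
  refine ⟨BG, inferInstance, J, J_ideal, J_closed, ?_⟩
  rintro ⟨r, μ, hμ, hgen⟩
  -- the decay of the generators
  have hτ : Tendsto (fun n => ∑ i, ‖Eop n (μ i)‖) atTop (𝓝 0) := by
    rw [← Finset.sum_const_zero (ι := Fin r) (s := Finset.univ)]
    refine tendsto_finsetSum _ fun i _ => ?_
    exact tendsto_zero_iff_norm_tendsto_zero.1 (Eop_tendsto (μ i) (aug_J _ (hμ i)))
  have hev : ∀ k : ℕ, ∀ᶠ j in atTop, ∑ i, ‖Eop (2 * j + 1) (μ i)‖ ≤ (1 / 4 : ℝ) ^ k := by
    intro k
    have h1 : Tendsto (fun j : ℕ => 2 * j + 1) atTop atTop :=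
      tendsto_atTop_mono (fun n => by show n ≤ 2 * n + 1; omega) tendsto_id
    have h2 := (hτ.comp h1).eventually (gt_mem_nhds (show (0 : ℝ) < (1 / 4 : ℝ) ^ k by positivity))
    exact h2.mono fun j hj => hj.le
  obtain ⟨φ, hφ, hφ2⟩ := extraction_forall_of_eventually hev
  choose u hu1 hu2 using exists_unit
  -- the element that is not generated
  have hsum : Summable (fun k : ℕ => ((1 / 2 : ℝ) : ℂ) ^ k • u (2 * φ k + 1)) := by
    refine Summable.of_norm ?_
    have : ∀ k, ‖((1 / 2 : ℝ) : ℂ) ^ k • u (2 * φ k + 1)‖ = (1 / 2 : ℝ) ^ k := by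
      intro k
      rw [norm_smul, hu1, mul_one, norm_pow, Complex.norm_real]
      norm_num
    simp only [this]
    exact summable_geometric_two
  set h := ∑' k : ℕ, ((1 / 2 : ℝ) : ℂ) ^ k • u (2 * φ k + 1) with hh
  have hE : ∀ m, Eop m h = ∑' k : ℕ, ((1 / 2 : ℝ) : ℂ) ^ k • Eop m (u (2 * φ k + 1)) := by
    intro m
    rw [hh, (Eop m).map_tsum hsum]
    refine tsum_congr fun k => ?_
    rw [map_smul]
  have hhJ : h ∈ J := by
    intro m hm
    rw [hE]
    have : ∀ k : ℕ, ((1 / 2 : ℝ) : ℂ) ^ k • Eop m (u (2 * φ k + 1)) = 0 := by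
      intro k
      rw [← hu2 (2 * φ k + 1), Eop_Eop_ne, smul_zero]
      rintro rfl
      rw [Nat.even_add_one] at hm
      exact hm (even_two_mul _)
    simp only [this, tsum_zero]
  have hnorm : ∀ k, ‖Eop (2 * φ k + 1) h‖ = (1 / 2 : ℝ) ^ k := by
    intro k
    rw [hE, tsum_eq_single k]
    · rw [hu2, norm_smul, hu1, mul_one, norm_pow, Complex.norm_real]
      norm_num
    · intro j hj
      rw [← hu2 (2 * φ j + 1), Eop_Eop_ne, smul_zero]
      intro h'
      exact hj (hφ.injective (by omega))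
  obtain ⟨ν, hν⟩ := (hgen h).1 hhJ
  have hbound : ∀ k, (1 / 2 : ℝ) ^ k ≤ (∑ i, ‖ν i‖) * (1 / 4 : ℝ) ^ k := by
    intro k
    rw [← hnorm k, hν, map_sum]
    refine (norm_sum_le _ _).trans ?_
    have h1 : ∀ i ∈ (Finset.univ : Finset (Fin r)), ‖Eop (2 * φ k + 1) (star (ν i) (μ i))‖ ≤
        (∑ i, ‖ν i‖) * ‖Eop (2 * φ k + 1) (μ i)‖ := by
      intro i hi
      rw [star_eq, Eop_Cop]
      refine (norm_Cop_le hp1 _ _).trans ?_
      refine mul_le_mul_of_nonneg_right ?_ (norm_nonneg _)
      exact Finset.single_le_sum (fun j _ => norm_nonneg (ν j)) hi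
    refine (Finset.sum_le_sum h1).trans ?_
    rw [← Finset.mul_sum]
    exact mul_le_mul_of_nonneg_left (hφ2 k) (Finset.sum_nonneg fun _ _ => norm_nonneg _)
  obtain ⟨k, hk⟩ := pow_unbounded_of_one_lt (∑ i, ‖ν i‖) (show (1 : ℝ) < 2 by norm_num)
  have h1 := hbound k
  have h2 : (1 / 2 : ℝ) ^ k = 2 ^ k * (1 / 4 : ℝ) ^ k := by
    rw [← mul_pow]; norm_num
  rw [h2] at h1
  have h3 := le_of_mul_le_mul_right h1 (by positivity)
  linarith

end Pool.Agent.Results.MP_6afee3_an.WeakStarIdeal
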